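import Pool.Agent.PCS.Stmts

/-!
Squad PCS, row EIB: the ends of the spines define a good ultrafilter.
-/

set_option autoImplicit false

open Filter

namespace Pool.Agent.PCS.H41

variable {Γ V : Type} [Group Γ] [MulAction Γ V]

open scoped Classical in
/-- the end of the spine -/
noncomputable def fend (T : Tree Γ V) (S : Finset Γ) (rk : Γ → V → ℕ) (v : V) : V :=
  if h : ∃ m, Alive T S rk m v ∧ ¬ Alive T S rk (m + 1) v then (stp T S rk)^[h.choose] v else v

theorem fend_spec {T : Tree Γ V} {S : Finset Γ} {rk : Γ → V → ℕ} {v : V}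
    (h : ∃ m, Alive T S rk m v ∧ ¬ Alive T S rk (m + 1) v) :
    ∃ m, Alive T S rk m v ∧ ¬ Alive T S rk (m + 1) v ∧ fend T S rk v = (stp T S rk)^[m] v := by
  refine ⟨h.choose, h.choose_spec.1, h.choose_spec.2, ?_⟩
  unfold fend
  rw [dif_pos h]

theorem no_neu {T : Tree Γ V} {S : Finset Γ} {rk : Γ → V → ℕ} {v : V} {m : ℕ}
    (h1 : Alive T S rk m v) (h2 : ¬ Alive T S rk (m + 1) v) :
    ¬ ∃ x, Neu T S rk ((stp T S rk)^[m] v) x := by
  intro hx
  apply h2
  intro k hk
  rcases Nat.lt_succ_iff_lt_or_eq.1 hk with hk | hk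
  · exact h1 k hk
  · rw [hk]
    exact hx

theorem eib (hL : LevStmt) (hI : ItpStmt) (hN : IntStmt) (hA : SpaStmt) (hB : SpbStmt) :
    EibStmt := by
  intro Γ V _ _ T S rk R K q M hS H hfi hfix U n δ σ hg hnM hδ hdel hsig hZ hend
  have hne : S.Nonempty := ⟨1, hS.one_mem⟩
  obtain ⟨hd, -⟩ := hL Γ V T
  obtain ⟨hA1, -, hA3⟩ := hA Γ V T S rk R hS.rank hne
  obtain ⟨-, -, -, -, hI5, -⟩ := hI Γ V T
  have hnd : n ≤ T.d * M := hnM.trans (Nat.le_mul_of_pos_left M hd)
  -- the properties of the ends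
  have hF : ∀ᶠ v in (U : Filter V), N Γ (fend T S rk v) = n ∧ del S rk (fend T S rk v) = δ ∧
      sig S rk (fend T S rk v) = σ ∧ ¬ ∃ x, Neu T S rk (fend T S rk v) x := by
    filter_upwards [hg.1, hdel, hsig, hend] with v h1 h2 h3 h4
    obtain ⟨m, hm1, hm2, hm3⟩ := fend_spec h4
    obtain ⟨e1, e2, e3, -⟩ := hA1 m v hm1
    rw [hm3]
    exact ⟨e1.trans h1, e3.trans h2, e2.trans h3, no_neu hm1 hm2⟩
  have hmap : ∀ p : V → Prop, (∀ᶠ v in (U : Filter V), p (fend T S rk v)) →
      ∀ᶠ v in ((U.map (fend T S rk) : Ultrafilter V) : Filter V), p v := by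
    intro p hp
    rw [Ultrafilter.coe_map]
    exact hp
  have hmap' : ∀ p : V → Prop, (∀ᶠ v in ((U.map (fend T S rk) : Ultrafilter V) : Filter V), p v) →
      (∀ᶠ v in (U : Filter V), p (fend T S rk v)) := by
    intro p hp
    rw [Ultrafilter.coe_map] at hp
    exact hp
  have hN1 : ∀ᶠ v in ((U.map (fend T S rk) : Ultrafilter V) : Filter V), N Γ v = n :=
    hmap _ (hF.mono fun v hv => hv.1)
  refine ⟨U.map (fend T S rk), ⟨hN1, ?_⟩, hmap _ (hF.mono fun v hv => hv.2.1),
    hmap _ (hF.mono fun v hv => hv.2.2.1), hmap _ (hF.mono fun v hv => hv.2.2.2)⟩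
  by_contra hinf
  have hinf' : (KU T (U.map (fend T S rk)) : Set Γ).Infinite := hinf
  have key := hN Γ hS.inf hS.nci H hfi Bool
    (fun b => if b then KU T (U.map (fend T S rk)) else ZZ T S rk H U)
    (by
      intro b
      cases b
      · simpa using hZ
      · simpa using hinf')
    (by
      intro b h hh k hk
      cases b
      · simp only [Bool.false_eq_true, if_false] at hk ⊢
        obtain ⟨hk1, hk2⟩ := hk
        refine ⟨H.mul_mem (H.mul_mem hh hk1) (H.inv_mem hh), ?_⟩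
        filter_upwards [hk2, hg.1, hdel] with v h1 h2 h3 l y hy
        have h4 := (hA3 l v y hy (by rw [h3]; exact hδ)).2
        rw [h2] at h4
        exact hI5 h k y (hfix y (h4.trans (Nat.mul_le_mul_left _ hnM)) h hh) (h1 l y hy)
      · simp only [if_true] at hk ⊢
        have hk' : ∀ᶠ v in ((U.map (fend T S rk) : Ultrafilter V) : Filter V), k ∈ KK T v := hk
        have : ∀ᶠ v in ((U.map (fend T S rk) : Ultrafilter V) : Filter V),
            h * k * h⁻¹ ∈ KK T v := by
          filter_upwards [hk', hN1] with v h1 h2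
          exact hI5 h k v (hfix v (by rw [h2]; exact hnd) h hh) h1
        exact this)
  refine key (hg.2.subset ?_)
  rintro g ⟨-, hgP⟩
  have hg1 : g ∈ KU T (U.map (fend T S rk)) := by simpa using hgP true
  have hg2 : g ∈ ZZ T S rk H U := by simpa using hgP false
  have hg1' : ∀ᶠ v in ((U.map (fend T S rk) : Ultrafilter V) : Filter V), g ∈ KK T v := hg1
  have hg3 := hmap' _ hg1'
  have hgoal : ∀ᶠ v in (U : Filter V), g ∈ KK T v := by
    filter_upwards [hg3, hg2.2, hend] with v h1 h2 h3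
    obtain ⟨m, hm1, -, hm3⟩ := fend_spec h3
    rw [hm3] at h1
    exact (hB Γ V T S rk R hS.rank hne v g).1 m hm1 h1 fun l y _ hy => h2 l y hy
  exact hgoal

end Pool.Agent.PCS.H41
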