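import Pool.Agent.PCS.Stmts

/-!
Squad PCS, row MAI: the growth is polynomial.
-/

set_option autoImplicit false

namespace Pool.Agent.PCS.H41

theorem mai (hU : UnbStmt) (hB : BndStmt) : MaiStmt := by
  intro Γ V _ _ T S rk R K q hS
  by_cases h : ∀ M : ℕ, ∃ (U : Ultrafilter V) (n : ℕ), M ≤ n ∧ Good T U n
  · exact hU Γ V T S rk R K q hS h
  · push Not at h
    obtain ⟨M, hM⟩ := h
    refine absurd (fun U n hg => ?_) (hB Γ V T S rk R K q M hS)
    by_contra hn
    exact hM U n (not_le.1 hn).le hg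

end Pool.Agent.PCS.H41
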